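import Pool.Agent.Lib.MP_fa6223_co.Z2

set_option autoImplicit false

namespace Pool.Agent.Results.MP_fa6223_co.LogPower

open Pool.Agent.SG

/-- The largest order `f m s` of a cyclic group with a signed `s`-spanning set of at most `m` elements is at most the
number `a m s` of the signed combinations, and at least `a m s` divided by a power of its logarithm, for all `m, s`. -/
theorem result :
    (∀ m s : ℕ, IsGreatest {n : ℕ | 1 ≤ n ∧ ∃ A : Finset (ZMod n), A.card ≤ m ∧ Spans s A} (f m s)) ∧
    (∀ m s : ℕ, f m s ≤ a m s) ∧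
    (∃ C : ℝ, 0 < C ∧ ∀ m s : ℕ, 1 ≤ m → 1 ≤ s →
      (a m s : ℝ) ≤ C * Real.log (a m s) ^ 8 * f m s) :=
  ⟨isGreatest_f, f_le_a, main_log⟩

end Pool.Agent.Results.MP_fa6223_co.LogPower
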