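import Pool.Agent.Lib.MP_fa6223_co.Z2

set_option autoImplicit false

namespace Pool.Agent.Results.MP_fa6223_co.SparseRange

open Pool.Agent.SG

/-- For `s ≤ m ^ (1 - δ)` the largest order `f m s` of a cyclic group with a signed `s`-spanning set of at most `m`
elements is at least `a m s / (C log (a m s))`, with `C` depending on `δ` only. -/
theorem result :
    (∀ m s : ℕ, IsGreatest {n : ℕ | 1 ≤ n ∧ ∃ A : Finset (ZMod n), A.card ≤ m ∧ Spans s A} (f m s)) ∧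
    (∀ m s : ℕ, f m s ≤ a m s) ∧
    (∀ δ : ℝ, 0 < δ → ∃ C : ℝ, 0 < C ∧ ∀ m s : ℕ, 1 ≤ m → 1 ≤ s → (s : ℝ) ≤ (m : ℝ) ^ (1 - δ) →
      (a m s : ℝ) ≤ C * Real.log (a m s) * f m s) :=
  ⟨isGreatest_f, f_le_a, fun _ hδ => q5 hδ⟩

end Pool.Agent.Results.MP_fa6223_co.SparseRange
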